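import Pool.Agent.Q54.EM.StmE

/-!
# Project EM: KAP and THE

Elementary moment estimates for sums of independent variables close to one.
-/

set_option autoImplicit false

namespace Pool.Agent.Q143.EM

open Finset Pool.Agent.Q54.EM

/-- expectation of a quadratic polynomial of the sum -/
theorem quad {ι : Type} [Fintype ι] (p x : ι → ℝ) (hs : ∑ i, p i = 1) (n : ℕ) :
    ∀ A B C : ℝ, EE p x n (fun s => A + B * s + C * s ^ 2) =
      A + B * (n * ∑ i, p i * x i) +
        C * (n * ∑ i, p i * x i ^ 2 + n * (n - 1) * (∑ i, p i * x i) ^ 2) := by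
  induction n with
  | zero => intro A B C; simp [EE]
  | succ n ih =>
    intro A B C
    have h0 : EE p x (n + 1) (fun s => A + B * s + C * s ^ 2) =
        ∑ i, p i * EE p x n (fun s => A + B * (s + x i) + C * (s + x i) ^ 2) := rfl
    have h1 : ∀ i, EE p x n (fun s => A + B * (s + x i) + C * (s + x i) ^ 2) =
        (A + B * x i + C * x i ^ 2) + (B + 2 * C * x i) * (n * ∑ i, p i * x i) +
        C * (n * ∑ i, p i * x i ^ 2 + n * (n - 1) * (∑ i, p i * x i) ^ 2) := by
      intro i
      rw [← ih]
      congr 1
      funext s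
      ring
    rw [h0]
    simp only [h1]
    set M := ∑ i, p i * x i with hM
    set Q := ∑ i, p i * x i ^ 2 with hQ
    have h2 : ∀ i, p i * ((A + B * x i + C * x i ^ 2) + (B + 2 * C * x i) * (n * M) +
        C * (n * Q + n * (n - 1) * M ^ 2)) =
        (A + B * (n * M) + C * (n * Q + n * (n - 1) * M ^ 2)) * p i +
        (B + 2 * C * (n * M)) * (p i * x i) + C * (p i * x i ^ 2) := by
      intro i; ring
    simp only [h2]
    rw [Finset.sum_add_distrib, Finset.sum_add_distrib, ← Finset.mul_sum, ← Finset.mul_sum,
      ← Finset.mul_sum, hs, ← hM, ← hQ]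
    push_cast
    ring

theorem second {ι : Type} [Fintype ι] (p x : ι → ℝ) (hs : ∑ i, p i = 1) :
    ∑ i, p i * (x i - 1) ^ 2 = ∑ i, p i * x i ^ 2 - 2 * (∑ i, p i * x i) + 1 := by
  have h : ∀ i, p i * (x i - 1) ^ 2 = p i * x i ^ 2 - 2 * (p i * x i) + p i := by
    intro i; ring
  simp only [h]
  rw [Finset.sum_add_distrib, Finset.sum_sub_distrib, ← Finset.mul_sum, hs]

theorem kap : S_EEL → S_KAP := by
  intro hE ι _ p x n hp hs hx hm hn j
  induction j with
  | zero =>
    intro y _ hy
    simp only [GP, PR, EE]
    push_cast at hy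
    split_ifs with h
    · rw [max_eq_left (by linarith)]
      linarith
    · rw [max_eq_right (by linarith)]
      linarith
  | succ j ih =>
    intro y hj hy
    push_cast at hy
    rcases le_or_gt (y - (j + 1)) (2 / 5) with hD | hD
    · -- condition on the first variable
      have h1 : GP p x (j + 1) y = ∑ i, p i * GP p x j (y - x i) := by
        simp only [GP, EE]
        refine Finset.sum_congr rfl fun i _ => ?_
        congr 2
        funext s
        congr 1
        ring
      have h2 : PR p x (j + 1) y = ∑ i, p i * PR p x j (y - x i) := by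
        simp only [PR, EE]
        refine Finset.sum_congr rfl fun i _ => ?_
        congr 2
        funext s
        have : (s + x i < y) ↔ (s < y - x i) := by constructor <;> intro h <;> linarith
        simp only [this]
      rw [h1, h2, Finset.mul_sum]
      refine Finset.sum_le_sum fun i _ => ?_
      have := ih (y - x i) (by omega) (by linarith [hx i])
      have h3 := mul_le_mul_of_nonneg_left this (hp i)
      linarith
    · -- second moments
      obtain ⟨e1, e2, e3, e4, e5, e6⟩ := hE ι p x (j + 1)
      have hpt : ∀ s : ℝ, 0 ≤ s → (y - 2 / 3 * y ^ 2) + (-1 + 4 / 3 * y) * s + (-2 / 3) * s ^ 2 ≤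
          3 / 2 * (if s < y then 1 else 0) - max (y - s) 0 := by
        intro s _
        split_ifs with h
        · rw [max_eq_left (by linarith)]
          nlinarith [sq_nonneg (y - s - 3 / 2)]
        · rw [max_eq_right (by linarith)]
          nlinarith [sq_nonneg (y - s)]
      have hmono := e4 hp hx _ _ hpt
      rw [quad p x hs] at hmono
      rw [e2 (fun s => 3 / 2 * (if s < y then 1 else 0)) (fun s => max (y - s) 0),
        e3 (3 / 2) (fun s => if s < y then 1 else 0)] at hmono
      have hPR : PR p x (j + 1) y = EE p x (j + 1) (fun s => if s < y then 1 else 0) := rfl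
      have hGP : GP p x (j + 1) y = EE p x (j + 1) (fun s => max (y - s) 0) := rfl
      rw [← hPR, ← hGP] at hmono
      have hv := second p x hs
      set M := ∑ i, p i * x i with hM
      set Q := ∑ i, p i * x i ^ 2 with hQ
      set v := ∑ i, p i * (x i - 1) ^ 2 with hvdef
      have hv0 : 0 ≤ v := Finset.sum_nonneg fun i _ => mul_nonneg (hp i) (sq_nonneg _)
      have hjn : ((j : ℝ) + 1) ≤ n := by exact_mod_cast hj
      have hj0 : (0 : ℝ) ≤ j := Nat.cast_nonneg j
      push_cast at hmono
      have hN : ((j : ℝ) + 1) * (v + (M - 1)) ≤ 66 / 1000 :=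
        le_trans (mul_le_mul_of_nonneg_right hjn (by linarith)) hn
      -- notation
      set N : ℝ := (j : ℝ) + 1 with hNdef
      have hN0 : 0 < N := by linarith
      have hd0 : 0 ≤ N * (M - 1) := mul_nonneg hN0.le (by linarith)
      have hNv : 0 ≤ N * v := mul_nonneg hN0.le hv0
      have hexp : y - 2 / 3 * y ^ 2 + (-1 + 4 / 3 * y) * (N * M) +
          -2 / 3 * (N * Q + N * (N - 1) * M ^ 2) =
          (y - N * M) - 2 / 3 * (y - N * M) ^ 2 - 2 / 3 * (N * v) + 2 / 3 * N * (M - 1) ^ 2 := by
        rw [hv]; ring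
      rw [hexp] at hmono
      have hδ : y - N * M = (y - N) - N * (M - 1) := by ring
      have hδ1 : 334 / 1000 ≤ y - N * M := by rw [hδ]; linarith
      have hδ2 : y - N * M ≤ 14 / 10 := by rw [hδ]; linarith
      have hsq : 0 ≤ 2 / 3 * N * (M - 1) ^ 2 := by positivity
      nlinarith [mul_nonneg (sub_nonneg.2 hδ1) (sub_nonneg.2 hδ2)]

theorem the : S_EEL → S_THE := by
  intro hE ι _ p x n hp hs hx hb hm hn j
  induction j with
  | zero =>
    intro z _ hz
    have h0 : EE p x 0 (fun s => if z ≤ s then (1 : ℝ) else 0) = 0 := by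
      simp only [EE]
      rw [if_neg]
      push_cast at hz
      linarith
    rw [h0]
    obtain ⟨e1, e2, e3, e4, e5, e6⟩ := hE ι p x (0 + 1)
    have := e4 hp hx (fun _ => 0) (fun s => max (s - z) 0) (fun s _ => le_max_right _ _)
    rw [e5 hs] at this
    linarith
  | succ j ih =>
    intro z hj hz
    push_cast at hz
    rcases le_or_gt ((j : ℝ) + 2 - z) (12 / 100) with hU | hU
    · -- condition on the first variable
      have h1 : EE p x (j + 1) (fun s => if z ≤ s then (1 : ℝ) else 0) =
          ∑ i, p i * EE p x j (fun s => if z - x i ≤ s then (1 : ℝ) else 0) := by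
        simp only [EE]
        refine Finset.sum_congr rfl fun i _ => ?_
        congr 2
        funext s
        have : (z ≤ s + x i) ↔ (z - x i ≤ s) := by constructor <;> intro h <;> linarith
        simp only [this]
      have h2 : EE p x (j + 1 + 1) (fun s => max (s - z) 0) =
          ∑ i, p i * EE p x (j + 1) (fun s => max (s - (z - x i)) 0) := by
        have h0 : EE p x (j + 1 + 1) (fun s => max (s - z) 0) =
          ∑ i, p i * EE p x (j + 1) (fun s => max (s + x i - z) 0) := rfl
        rw [h0]
        refine Finset.sum_congr rfl fun i _ => ?_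
        congr 2
        funext s
        congr 1
        ring
      rw [h1, h2, Finset.mul_sum]
      refine Finset.sum_le_sum fun i _ => ?_
      by_cases hpi : p i = 0
      · simp [hpi]
      · have hxi := hb i hpi
        have := ih (z - x i) (by omega) (by linarith)
        have h3 := mul_le_mul_of_nonneg_left this (hp i)
        linarith
    · -- Cantelli
      obtain ⟨e1, e2, e3, e4, e5, e6⟩ := hE ι p x (j + 1)
      obtain ⟨g1, g2, g3, g4, g5, g6⟩ := hE ι p x (j + 1 + 1)
      have hv := second p x hs
      set M := ∑ i, p i * x i with hM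
      set Q := ∑ i, p i * x i ^ 2 with hQ
      set v := ∑ i, p i * (x i - 1) ^ 2 with hvdef
      have hv0 : 0 ≤ v := Finset.sum_nonneg fun i _ => mul_nonneg (hp i) (sq_nonneg _)
      have hjn : ((j : ℝ) + 1 + 1) ≤ n := by exact_mod_cast hj
      have hj0 : (0 : ℝ) ≤ j := Nat.cast_nonneg j
      set N : ℝ := (j : ℝ) + 1 with hNdef
      have hN0 : 0 < N := by linarith
      have hN : N * (v + (M - 1)) ≤ 66 / 1000 :=
        le_trans (mul_le_mul_of_nonneg_right (by linarith) (by linarith)) hn
      have hd0 : 0 ≤ N * (M - 1) := mul_nonneg hN0.le (by linarith)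
      have hNv : 0 ≤ N * v := mul_nonneg hN0.le hv0
      -- T = 1 - U
      set T : ℝ := z - N with hT
      have hT1 : 267 / 1000 ≤ T := by linarith
      have hT2 : T ≤ 88 / 100 := by linarith
      have hT0 : 0 < T := by linarith
      set κ : ℝ := (66 / 1000) / T with hκ
      have hκT : κ * T = 66 / 1000 := by rw [hκ]; field_simp
      have hκ0 : 0 < κ := by rw [hκ]; positivity
      have hκ1 : κ ≤ 25 / 100 := by
        rw [hκ, div_le_iff₀ hT0]; linarith
      -- the pointwise inequality
      set c : ℝ := N - κ with hc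
      have hTκ : 0 < T + κ := by linarith
      have hpt : ∀ s : ℝ, 0 ≤ s → (T + κ) ^ 2 * (if z ≤ s then (1 : ℝ) else 0) ≤
          c ^ 2 + (-2 * c) * s + 1 * s ^ 2 := by
        intro s _
        split_ifs with h
        · have h1 : T + κ ≤ s - c := by rw [hT, hc]; linarith
          nlinarith [mul_self_le_mul_self hTκ.le h1]
        · nlinarith [sq_nonneg (s - c)]
      have hmono := e4 hp hx _ _ hpt
      rw [quad p x hs, e3] at hmono
      rw [← hM, ← hQ] at hmono
      push_cast at hmono
      rw [← hNdef] at hmono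
      have hexp : c ^ 2 + -2 * c * (N * M) + 1 * (N * Q + N * (N - 1) * M ^ 2) =
          (N * v) - N * (M - 1) ^ 2 + (N * (M - 1) + κ) ^ 2 := by
        rw [hv, hc]; ring
      rw [hexp] at hmono
      set P := EE p x (j + 1) (fun s => if z ≤ s then (1 : ℝ) else 0) with hP
      have hsq : 0 ≤ N * (M - 1) ^ 2 := by positivity
      have hnum : (T + κ) ^ 2 * P ≤ 66 / 1000 + κ ^ 2 := by
        have h1 : (N * (M - 1)) * (N * (M - 1) + 2 * κ) ≤ N * (M - 1) * 1 :=
          mul_le_mul_of_nonneg_left (by nlinarith) hd0
        nlinarith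
      -- lower bound of the expectation
      have hlow : (j : ℝ) + 2 - z ≤ EE p x (j + 1 + 1) (fun s => max (s - z) 0) := by
        have h1 := g4 hp hx (fun s => -z + 1 * s + 0 * s ^ 2) (fun s => max (s - z) 0)
          (fun s _ => by
            have := le_max_left (s - z) 0
            show -z + 1 * s + 0 * s ^ 2 ≤ max (s - z) 0
            linarith)
        rw [quad p x hs] at h1
        rw [← hM] at h1
        push_cast at h1
        have h2 : (j : ℝ) + 2 ≤ (j + 1 + 1) * M := by nlinarith
        linarith
      have hU1 : (j : ℝ) + 2 - z = 1 - T := by rw [hT, hNdef]; ring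
      rw [hU1] at hlow
      -- final numerical inequality
      have hfin : 66 / 1000 + κ ^ 2 ≤ (T + κ) ^ 2 * (66 / 100 * (1 - T)) := by
        -- multiply by T^2 : (0.066 T^2 + 0.066^2) ≤ (T^2 + 0.066)^2 * 0.66 (1-T)
        have h1 : 66 / 1000 ≤ (T ^ 2 + 66 / 1000) * (66 / 100 * (1 - T)) := by
          nlinarith [mul_nonneg (sub_nonneg.2 hT1) (sub_nonneg.2 hT2),
            mul_nonneg (mul_nonneg (sub_nonneg.2 hT1) (sub_nonneg.2 hT2)) hT0.le]
        have h2 : T ^ 2 * (66 / 1000 + κ ^ 2) ≤ T ^ 2 * ((T + κ) ^ 2 * (66 / 100 * (1 - T))) := by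
          have e1 : T ^ 2 * (66 / 1000 + κ ^ 2) = (T ^ 2 + 66 / 1000) * (66 / 1000) := by
            have : T ^ 2 * κ ^ 2 = (66 / 1000) ^ 2 := by rw [← mul_pow, mul_comm T κ, hκT]
            nlinarith
          have e2 : T ^ 2 * ((T + κ) ^ 2 * (66 / 100 * (1 - T))) =
              (T ^ 2 + 66 / 1000) ^ 2 * (66 / 100 * (1 - T)) := by
            have : T * (T + κ) = T ^ 2 + 66 / 1000 := by rw [← hκT]; ring
            rw [← this]; ring
          rw [e1, e2]
          have h3 := mul_le_mul_of_nonneg_left h1 (by positivity : (0 : ℝ) ≤ T ^ 2 + 66 / 1000)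
          nlinarith
        exact le_of_mul_le_mul_left h2 (by positivity)
      have h4 : (T + κ) ^ 2 * P ≤ (T + κ) ^ 2 * (66 / 100 * (1 - T)) := hnum.trans hfin
      have h5 := le_of_mul_le_mul_left h4 (by positivity)
      linarith

end Pool.Agent.Q143.EM
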